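import Pool.Agent.K3h45.IN.BlkA

/-!
# Brick N2 of helper83: block orthogonality modulo `p`
-/

set_option autoImplicit false
set_option linter.unusedSectionVars false
set_option linter.style.haveILetI false

open scoped BigOperators Classical

noncomputable section

namespace Pool.Agent.K3h45.IN

open Pool.Agent.Helper884 Pool.Agent.K3h3.KB Pool.Agent.K3h83.IN
open Pool.Agent.H254R3.IN (IsIrr mem_Irr RF red red_zero red_one red_sum red_mul red_add red_sub
  red_neg red_eq_zero red_eq_zero_iff red_eq_iff red_natCast charP_RF red_nat_eq_zero_iff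
  nonunits_mem mem_of_isIntegral orth_sum natCast_mem' sub_mem' schur irr_nontrivial nat_inv_mem)
open IC (Irr)

section setup

variable {p : ℕ} [hp : Fact p.Prime] {A G : Type} [Group A] [Fintype A] [Group G] [Fintype G]
  {P H : Subgroup A} {ι : A →* G}

/-- conjugation -/
def cj (hL : LD p P H) (n : A) (y : H) : H := ⟨n * y * n⁻¹, hL.nH.conj_mem y y.2 n⟩

theorem comPP (hL : LD p P H) {x y : A} (hx : x ∈ P) (hy : y ∈ P) : x * y = y * x := by
  have h1 : y ∈ Subgroup.centralizer (P : Set A) := by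
    haveI : Fact (Nat.card P).Prime := ⟨by rw [hL.cP]; exact hp.out⟩
    haveI : IsCyclic P := isCyclic_of_prime_card rfl
    rw [Subgroup.mem_centralizer_iff]
    intro z hz
    obtain ⟨g, hg⟩ := IsCyclic.exists_generator (α := P)
    obtain ⟨a, ha⟩ := hg ⟨z, hz⟩
    obtain ⟨b, hb⟩ := hg ⟨y, hy⟩
    have ha' : (g : A) ^ a = z := congrArg Subtype.val ha
    have hb' : (g : A) ^ b = y := congrArg Subtype.val hb
    rw [← ha', ← hb', ← zpow_add, ← zpow_add, add_comm]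
  exact (Subgroup.mem_centralizer_iff.mp h1) x hx

theorem powP (hL : LD p P H) {x : A} (hx : x ∈ P) : x ^ p = 1 := by
  have h1 : (⟨x, hx⟩ : P) ^ Nat.card P = 1 := pow_card_eq_one'
  rw [hL.cP] at h1
  exact congrArg Subtype.val h1

theorem cj_mul_inv (hL : LD p P H) (n v : A) (hv : v ∈ P) (y : H) :
    cj hL (n * v⁻¹) y = cj hL n y := by
  ext
  simp only [cj]
  have h1 : v⁻¹ * (y : A) = y * v⁻¹ := hL.com _ (P.inv_mem hv) _ y.2
  calc n * v⁻¹ * y * (n * v⁻¹)⁻¹ = n * (v⁻¹ * y) * (v * n⁻¹) := by group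
    _ = n * y * n⁻¹ := by rw [h1]; group

/-- the sum over the elements outside the normalizer -/
theorem out_sum (O : ValuationSubring ℂ) (hL : LD p P H) (hE : EM p P ι) {χ : G → ℂ}
    (hχ : IsIrr χ) {x₀ : A} (hx₀ : x₀ ∈ P) (y₀ y : H) :
    ∃ z ∈ oo O, ∑ t ∈ Finset.univ.filter (fun t : G => t ∉ ι.range),
      χ (t * ι (x₀ * y₀) * t⁻¹ * ι y) = ((p : ℂ) * p) * z := by
  haveI : Fintype P := Fintype.ofFinite P
  have hcard : (Nat.card (P × P) : ℂ) = (p : ℂ) * p := by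
    rw [Nat.card_prod, hL.cP]
    push_cast
    rfl
  rw [← hcard]
  have hnor : ∀ (v : A), v ∈ P → v ≠ 1 → ∀ (u : A), u ∈ P → ∀ t : G, ι u * t * (ι v)⁻¹ = t →
      t ∈ ι.range := by
    intro v hv hv1 u hu t ht
    apply hE.nor
    haveI : Fact (Nat.card P).Prime := ⟨by rw [hL.cP]; exact hp.out⟩
    intro x hx
    have h1 : (⟨v, hv⟩ : P) ≠ 1 := fun h => hv1 (congrArg Subtype.val h)
    have h2 := zpowers_eq_top_of_prime_card (G := P) (p := Nat.card P) rfl h1
    have h3 : (⟨x, hx⟩ : P) ∈ Subgroup.zpowers (⟨v, hv⟩ : P) := by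
      rw [h2]; trivial
    obtain ⟨k, hk⟩ := h3
    have hk' : v ^ k = x := congrArg Subtype.val hk
    refine ⟨u ^ k, P.zpow_mem hu k, ?_⟩
    have h4 : t * ι v * t⁻¹ = ι u := by
      have h5 : ι u * t = t * ι v := by
        rw [mul_inv_eq_iff_eq_mul] at ht
        exact ht
      rw [← h5, mul_inv_cancel_right]
    rw [← hk', map_zpow, map_zpow, ← h4, conj_zpow]
  refine free_sum (Q := P × P) (fun q t => ι q.1 * t * (ι q.2)⁻¹) (fun t => by simp)
    (fun a b t => by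
      simp only [Prod.fst_mul, Prod.snd_mul, Subgroup.coe_mul, map_mul, mul_inv_rev, mul_assoc])
    (fun t => χ (t * ι (x₀ * y₀) * t⁻¹ * ι y)) (oo O) _ _ rfl ?_ ?_ ?_ ?_
  · rintro ⟨u, v⟩ t ht
    rw [Finset.mem_filter] at ht ⊢
    refine ⟨Finset.mem_univ _, fun h => ht.2 ?_⟩
    obtain ⟨n, hn⟩ := h
    refine ⟨(u : A)⁻¹ * n * v, ?_⟩
    rw [map_mul, map_mul, hn, map_inv]
    group
  · rintro ⟨u, v⟩ t ht h
    rw [Finset.mem_filter] at ht
    by_cases hv : (v : A) = 1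
    · have hv' : v = 1 := Subtype.ext hv
      subst hv'
      have h1 : ι (u : A) = 1 := by
        have h2 : ι (u : A) * t = t := by
          simpa using h
        exact mul_eq_right.mp h2
      have h2 : (u : A) = 1 := hE.inj (by rw [h1, map_one])
      have h3 : u = 1 := Subtype.ext h2
      rw [h3]
      rfl
    · exact absurd (hnor v v.2 hv u u.2 t h) ht.2
  · rintro ⟨u, v⟩ t _
    have hv : (v : A) * (x₀ * y₀) * (v : A)⁻¹ = x₀ * y₀ := by
      have e1 : (v : A) * x₀ = x₀ * v := comPP hL v.2 hx₀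
      have e2 : (v : A) * y₀ = y₀ * v := hL.com _ v.2 _ y₀.2
      calc (v : A) * (x₀ * y₀) * (v : A)⁻¹ = (v * x₀) * y₀ * (v : A)⁻¹ := by group
        _ = x₀ * (v * y₀) * (v : A)⁻¹ := by rw [e1]; group
        _ = x₀ * y₀ := by rw [e2]; group
    have hv' : (ι v)⁻¹ * ι (x₀ * y₀) * ι v = ι (x₀ * y₀) := by
      rw [← map_inv, ← map_mul, ← map_mul]
      congr 1
      calc (v : A)⁻¹ * (x₀ * y₀) * v = (v : A)⁻¹ * (v * (x₀ * y₀) * (v : A)⁻¹) * v := by rw [hv]
        _ = x₀ * y₀ := by group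
    have hu : ι (u : A) * ι (y : A) = ι y * ι u := by
      rw [← map_mul, ← map_mul, hL.com _ u.2 _ y.2]
    have e : ι (u : A) * t * (ι v)⁻¹ * ι (x₀ * y₀) * (ι (u : A) * t * (ι v)⁻¹)⁻¹ * ι y =
        ι u * (t * ι (x₀ * y₀) * t⁻¹ * ι y) * (ι u)⁻¹ := by
      calc ι (u : A) * t * (ι v)⁻¹ * ι (x₀ * y₀) * (ι (u : A) * t * (ι v)⁻¹)⁻¹ * ι y
          = ι u * t * ((ι v)⁻¹ * ι (x₀ * y₀) * ι v) * t⁻¹ * ((ι u)⁻¹ * ι y) := by group
        _ = ι u * t * ι (x₀ * y₀) * t⁻¹ * (ι y * (ι u)⁻¹) := by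
          rw [hv']
          congr 1
          rw [inv_mul_eq_iff_eq_mul, ← mul_assoc, hu, mul_inv_cancel_right]
        _ = _ := by group
    change χ (ι (u : A) * t * (ι v)⁻¹ * ι (x₀ * y₀) * (ι (u : A) * t * (ι v)⁻¹)⁻¹ * ι y) = _
    rw [e]
    exact hχ.conj _ _
  · intro t _
    exact hχ.val_mem O _

/-- the sum over the normalizer -/
theorem in_sum {O : ValuationSubring ℂ} (hpO : (p : ℂ) ∈ O.nonunits) (hL : LD p P H)
    {χ : G → ℂ} (hχ : IsIrr χ) {x₀ : A} (hx₀ : x₀ ∈ P) (y₀ y : H) :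
    ∃ m ∈ mm O, ∑ n : A, (χ (ι n * ι (x₀ * y₀) * (ι n)⁻¹ * ι y) - χ (ι (cj hL n y₀ * y : H))) =
      (p : ℂ) * m := by
  haveI : Fintype P := Fintype.ofFinite P
  have hcard : (Nat.card P : ℂ) = (p : ℂ) := by rw [hL.cP]
  rw [← hcard]
  have hform : ∀ n : A, ι n * ι (x₀ * y₀) * (ι n)⁻¹ * ι y =
      ι (n * x₀ * n⁻¹) * ι (cj hL n y₀ * y : H) := by
    intro n
    rw [← map_inv, ← map_mul, ← map_mul, ← map_mul, ← map_mul]
    congr 1
    simp only [cj, Subgroup.coe_mul]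
    group
  refine free_sum (Q := P) (fun q n => n * (q : A)⁻¹) (fun n => by simp)
    (fun a b n => by
      simp only [Subgroup.coe_mul, mul_inv_rev, mul_assoc])
    (fun n => χ (ι n * ι (x₀ * y₀) * (ι n)⁻¹ * ι y) - χ (ι (cj hL n y₀ * y : H))) (mm O) _ _ rfl
    (fun _ _ _ => Finset.mem_univ _) ?_ ?_ ?_
  · intro q n _ h
    have h1 : (q : A)⁻¹ = 1 := mul_eq_left.mp h
    exact Subtype.ext (inv_eq_one.mp h1)
  · intro q n _
    rw [cj_mul_inv hL n q q.2, hform, hform, cj_mul_inv hL n q q.2]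
    have e1 : n * (q : A)⁻¹ * x₀ * (n * (q : A)⁻¹)⁻¹ = n * x₀ * n⁻¹ := by
      have e2 : (q : A)⁻¹ * x₀ = x₀ * (q : A)⁻¹ := comPP hL (P.inv_mem q.2) hx₀
      calc n * (q : A)⁻¹ * x₀ * (n * (q : A)⁻¹)⁻¹ = n * ((q : A)⁻¹ * x₀) * (q * n⁻¹) := by group
        _ = _ := by rw [e2]; group
    rw [e1]
  · intro n _
    rw [hform]
    have hx : n * x₀ * n⁻¹ ∈ P := hL.nP.conj_mem x₀ hx₀ n
    refine ppart hpO hχ ?_ ?_
    · rw [← map_mul, ← map_mul, hL.com _ hx _ (cj hL n y₀ * y : H).2]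
    · rw [← map_pow, powP hL hx, map_one]

/-- the sum over the conjugates of `φ` -/
def zz (hL : LD p P H) (φ : H → ℂ) (y₀ : H) : ℂ := (∑ n : A, φ (cj hL n y₀)) / p

theorem zz_mem (O : ValuationSubring ℂ) (hL : LD p P H) {φ : H → ℂ} (hφ : IsIrr φ) (y₀ : H) :
    zz hL φ y₀ ∈ O := by
  haveI : Fintype P := Fintype.ofFinite P
  obtain ⟨z, hz, hs⟩ := free_sum (Q := P) (X := A) (fun q n => n * (q : A)⁻¹) (fun n => by simp)
    (fun a b n => by
      simp only [Subgroup.coe_mul, mul_inv_rev, mul_assoc])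
    (fun n => φ (cj hL n y₀)) (oo O) _ Finset.univ rfl
    (fun _ _ _ => Finset.mem_univ _) (by
      intro q n _ h
      have h1 : (q : A)⁻¹ = 1 := mul_eq_left.mp h
      exact Subtype.ext (inv_eq_one.mp h1)) (by
      intro q n _
      rw [cj_mul_inv hL n q q.2]) (fun n _ => hφ.val_mem O _)
  have hp0 : (p : ℂ) ≠ 0 := by exact_mod_cast hp.out.ne_zero
  have h1 : zz hL φ y₀ = z := by
    unfold zz
    rw [hs, hL.cP, mul_div_cancel_left₀ _ hp0]
  rw [h1]
  exact hz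

/-- the key congruence -/
theorem key {O : ValuationSubring ℂ} (hpO : (p : ℂ) ∈ O.nonunits) (h1 : N1) (hL : LD p P H)
    (hE : EM p P ι) {χ : G → ℂ} (hχ : IsIrr χ) {x₀ : A} (hx₀ : x₀ ∈ P) (y₀ : H) {φ : H → ℂ}
    (hφ : IsIrr φ) (ha : ¬ p ∣ aN H ι χ φ) :
    (Nat.card G * χ (ι (x₀ * y₀)) / χ 1) / p * φ 1 - zz hL φ y₀ ∈ mm O := by
  haveI : Fintype H := Fintype.ofFinite H
  have hp0 : (p : ℂ) ≠ 0 := by exact_mod_cast hp.out.ne_zero
  have hH0 : (Nat.card H : ℂ) ≠ 0 := by exact_mod_cast Nat.card_pos.ne'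
  have ha0 : (aN H ι χ φ : ℂ) ≠ 0 := by
    intro h
    apply ha
    have : aN H ι χ φ = 0 := by exact_mod_cast h
    rw [this]
    exact dvd_zero p
  set R : ℂ := Nat.card G * χ (ι (x₀ * y₀)) / χ 1 with hR
  choose z₁ hz₁ hs₁ using fun y : H => out_sum (ι := ι) O hL hE hχ hx₀ y₀ y
  choose m hm hsm using fun y : H => in_sum (ι := ι) hpO hL hχ hx₀ y₀ y
  -- the sum over the group
  have hall : ∀ y : H, R * χ (ι y) = ∑ n : A, χ (ι (cj hL n y₀ * y : H)) +
      (p : ℂ) * (m y + p * z₁ y) := by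
    intro y
    have e1 := sum_conj hχ (ι (x₀ * y₀)) (ι y)
    have e2 : ∑ t : G, χ (t * ι (x₀ * y₀) * t⁻¹ * ι y) = R * χ (ι y) := by
      rw [hR, div_mul_eq_mul_div, eq_div_iff hχ.one_ne, e1]
    have e3 : ∑ t ∈ Finset.univ.filter (fun t : G => t ∈ ι.range),
        χ (t * ι (x₀ * y₀) * t⁻¹ * ι y) = ∑ n : A, χ (ι n * ι (x₀ * y₀) * (ι n)⁻¹ * ι y) := by
      have e4 : Finset.univ.filter (fun t : G => t ∈ ι.range) = Finset.univ.image ι := by
        ext t
        simp [MonoidHom.mem_range]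
      rw [e4, Finset.sum_image (fun a _ b _ h => hE.inj h)]
    rw [← e2, ← Finset.sum_filter_add_sum_filter_not Finset.univ (fun t : G => t ∈ ι.range), e3,
      hs₁ y]
    have e5 := hsm y
    rw [Finset.sum_sub_distrib, sub_eq_iff_eq_add] at e5
    rw [e5]
    ring
  -- the orthogonality
  have hexp : ∀ h : H, χ (ι h) = ∑ ψ ∈ Irr H, (aN H ι χ ψ : ℂ) * ψ h := by
    intro h
    have hcl : IC.IsClass (fun y : H => χ (ι y)) := by
      intro g y
      simp only [Subgroup.coe_mul, map_mul, Subgroup.coe_inv, map_inv]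
      exact hχ.conj _ _
    have e1 := congrFun (IC.expand (fun y : H => χ (ι y)) hcl) h
    rw [Finset.sum_apply] at e1
    rw [e1]
    refine Finset.sum_congr rfl fun ψ hψ => ?_
    rw [Pi.smul_apply, smul_eq_mul, (h1 A G H ι χ ψ hE.inj hχ (mem_Irr.mp hψ)).1]
  have horth : ∀ z : H, ∑ y : H, χ (ι (z * y : H)) * φ y⁻¹ =
      (aN H ι χ φ : ℂ) * (Nat.card H * φ z / φ 1) := by
    intro z
    have e1 : ∀ y : H, χ (ι (z * y : H)) * φ y⁻¹ =
        ∑ ψ ∈ Irr H, (aN H ι χ ψ : ℂ) * (ψ (z * y) * φ y⁻¹) := by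
      intro y
      rw [hexp, Finset.sum_mul]
      exact Finset.sum_congr rfl fun ψ _ => by ring
    rw [Finset.sum_congr rfl (fun y _ => e1 y), Finset.sum_comm]
    rw [Finset.sum_eq_single φ]
    · rw [← Finset.mul_sum, gen_orth hφ hφ, if_pos rfl]
    · intro ψ hψ hne
      rw [← Finset.mul_sum, gen_orth (mem_Irr.mp hψ) hφ, if_neg hne, mul_zero]
    · intro h
      exact absurd (mem_Irr.mpr hφ) h
  set m' : ℂ := ∑ y : H, (m y + p * z₁ y) * φ y⁻¹ with hm'
  have hm'mem : m' ∈ mm O := by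
    refine (mm O).sum_mem fun y _ => ?_
    rw [mul_comm]
    refine mm_mul (hφ.val_mem O _) ((mm O).add_mem (hm y) ?_)
    rw [mul_comm]
    exact mm_mul (hz₁ y) ⟨nonunits_mem hpO, red_eq_zero hpO⟩
  have hmain : R * ((aN H ι χ φ : ℂ) * Nat.card H) =
      (aN H ι χ φ : ℂ) * Nat.card H * (p * zz hL φ y₀) / φ 1 + p * m' := by
    have e1 : ∑ y : H, R * χ (ι y) * φ y⁻¹ = R * ((aN H ι χ φ : ℂ) * Nat.card H) := by
      have e2 := horth 1
      simp only [one_mul] at e2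
      rw [Finset.sum_congr rfl (fun y _ => mul_assoc _ _ _), ← Finset.mul_sum, e2,
        mul_div_cancel_right₀ _ hφ.one_ne]
    rw [← e1, Finset.sum_congr rfl (fun y _ => by rw [hall y])]
    simp only [add_mul, Finset.sum_add_distrib]
    congr 1
    · simp only [Finset.sum_mul]
      rw [Finset.sum_comm, Finset.sum_congr rfl (fun n _ => horth _)]
      unfold zz
      rw [mul_div_cancel₀ _ hp0, Finset.mul_sum, Finset.sum_div]
      exact Finset.sum_congr rfl fun n _ => by ring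
    · rw [hm', Finset.mul_sum]
      exact Finset.sum_congr rfl fun y _ => by ring
  have hfin : R / p * φ 1 - zz hL φ y₀ =
      ((aN H ι χ φ : ℂ)⁻¹ * (Nat.card H : ℂ)⁻¹ * φ 1) * m' := by
    have h0 := hφ.one_ne
    field_simp at hmain ⊢
    linear_combination hmain
  rw [hfin]
  refine mm_mul ?_ hm'mem
  exact O.mul_mem _ _ (O.mul_mem _ _ (nat_inv_mem hpO ha) (nat_inv_mem hpO hL.cH))
    (hφ.val_mem O 1)

/-- conjugation as an automorphism of `H` -/
def cjE (hL : LD p P H) (n : A) : H ≃* H where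
  toFun := cj hL n
  invFun := cj hL n⁻¹
  left_inv y := by
    ext
    simp only [cj]
    group
  right_inv y := by
    ext
    simp only [cj]
    group
  map_mul' a b := by
    ext
    simp only [cj, Subgroup.coe_mul]
    group

theorem cj_irr (hL : LD p P H) {φ : H → ℂ} (hφ : IsIrr φ) (n : A) :
    IsIrr (fun y => φ (cj hL n y)) := Pool.Agent.Q90.WR.irr_comp (cjE hL n) hφ

/-- the inertia group -/
def St (hL : LD p P H) (φ : H → ℂ) : Subgroup A where
  carrier := {n | ∀ y, φ (cj hL n y) = φ y}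
  mul_mem' := by
    intro a b ha hb y
    have e : cj hL (a * b) y = cj hL a (cj hL b y) := by
      ext
      simp only [cj]
      group
    rw [e, ha, hb]
  one_mem' := by
    intro y
    congr 1
    ext
    simp [cj]
  inv_mem' := by
    intro a ha y
    have e := ha (cj hL a⁻¹ y)
    rw [← e]
    congr 1
    ext
    simp only [cj]
    group

theorem sum_zz [Fintype H] (hL : LD p P H) {φ ψ : H → ℂ} (hφ : IsIrr φ) (hψ : IsIrr ψ) :
    ∑ y : H, zz hL φ y * ψ y⁻¹ =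
      (Nat.card H : ℂ) * ((Finset.univ.filter fun n : A => (fun y => φ (cj hL n y)) = ψ).card : ℂ) / p := by
  unfold zz
  have h1 : ∀ y : H, (∑ n : A, φ (cj hL n y)) / p * ψ y⁻¹ =
      ∑ n : A, (φ (cj hL n y) * ψ y⁻¹) / p := by
    intro y
    rw [div_mul_eq_mul_div, Finset.sum_mul, Finset.sum_div]
  rw [Finset.sum_congr rfl (fun y _ => h1 y), Finset.sum_comm]
  have h2 : ∀ n : A, ∑ y : H, (φ (cj hL n y) * ψ y⁻¹) / p =
      (if (fun y => φ (cj hL n y)) = ψ then (Nat.card H : ℂ) else 0) / p := by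
    intro n
    rw [← Finset.sum_div, ← orth_sum (cj_irr hL hφ n) hψ]
  rw [Finset.sum_congr rfl (fun n _ => h2 n), ← Finset.sum_div, ← Finset.sum_filter,
    Finset.sum_const, nsmul_eq_mul, mul_comm]

end setup

/-- **Brick N2.** -/
theorem t_N2 (h1 : N1) : N2 := by
  intro p hp A G _ _ _ _ P H ι hL hE χ φ φ' hχ hφ hφ' ha ha'
  haveI := Fintype.ofFinite A
  haveI := Fintype.ofFinite G
  haveI := Fintype.ofFinite H
  obtain ⟨O, hpO⟩ := exists_val p
  have hp0 : (p : ℂ) ≠ 0 := by exact_mod_cast hp.out.ne_zero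
  by_contra hcon
  have hno : ∀ n : A, (fun y => φ' (cj hL n y)) ≠ φ := by
    intro n hn
    apply hcon
    refine ⟨n, fun y y' h => ?_⟩
    have e : y' = cj hL n y := Subtype.ext h.symm
    rw [e]
    exact congrFun hn y
  -- the congruence of the two sums
  have hc : ∀ y₀ : H, φ' 1 * zz hL φ y₀ - φ 1 * zz hL φ' y₀ ∈ mm O := by
    intro y₀
    have k1 := key hpO h1 hL hE hχ P.one_mem y₀ hφ ha
    have k2 := key hpO h1 hL hE hχ P.one_mem y₀ hφ' ha'
    set R := (Nat.card G * χ (ι (1 * y₀)) / χ 1) / p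
    have e : φ' 1 * zz hL φ y₀ - φ 1 * zz hL φ' y₀ =
        φ 1 * (R * φ' 1 - zz hL φ' y₀) - φ' 1 * (R * φ 1 - zz hL φ y₀) := by ring
    rw [e]
    exact (mm O).sub_mem (mm_mul (hφ.val_mem O 1) k2) (mm_mul (hφ'.val_mem O 1) k1)
  have hs : ∑ y₀ : H, (φ' 1 * zz hL φ y₀ - φ 1 * zz hL φ' y₀) * φ y₀⁻¹ ∈ mm O := by
    refine (mm O).sum_mem fun y _ => ?_
    rw [mul_comm]
    exact mm_mul (hφ.val_mem O _) (hc y)
  have hs2 : ∑ y₀ : H, (φ' 1 * zz hL φ y₀ - φ 1 * zz hL φ' y₀) * φ y₀⁻¹ =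
      φ' 1 * ∑ y₀ : H, zz hL φ y₀ * φ y₀⁻¹ - φ 1 * ∑ y₀ : H, zz hL φ' y₀ * φ y₀⁻¹ := by
    rw [Finset.mul_sum, Finset.mul_sum, ← Finset.sum_sub_distrib]
    exact Finset.sum_congr rfl fun y _ => by ring
  have hempty : (Finset.univ.filter fun n : A => (fun y => φ' (cj hL n y)) = φ) = ∅ :=
    Finset.filter_eq_empty_iff.mpr fun n _ => hno n
  rw [hs2, sum_zz hL hφ hφ, sum_zz hL hφ' hφ, hempty, Finset.card_empty, Nat.cast_zero, mul_zero,
    zero_div, mul_zero, sub_zero] at hs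
  -- the inertia group
  have hcardS : (Finset.univ.filter fun n : A => (fun y => φ (cj hL n y)) = φ).card =
      Nat.card (St hL φ) := by
    rw [Nat.card_eq_fintype_card, Fintype.card_subtype]
    congr 1
    ext n
    simp only [Finset.mem_filter, Finset.mem_univ, true_and]
    exact ⟨fun h y => congrFun h y, fun h => funext h⟩
  have hPS : P ≤ St hL φ := by
    intro x hx y
    congr 1
    ext
    simp only [cj]
    rw [hL.com x hx y y.2, mul_inv_cancel_right]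
  have hdvd : Nat.card P ∣ Nat.card (St hL φ) := Subgroup.card_dvd_of_le hPS
  rw [hL.cP] at hdvd
  obtain ⟨E, hE'⟩ := hdvd
  have hEp : ¬ p ∣ E := by
    rintro ⟨k, rfl⟩
    obtain ⟨l, hl⟩ := Subgroup.card_subgroup_dvd_card (St hL φ)
    have h2 := P.card_mul_index
    rw [hL.cP, hl, hE'] at h2
    apply hL.idx
    have h3 : P.index = p * k * l := by
      apply Nat.eq_of_mul_eq_mul_left hp.out.pos
      rw [h2]
      ring
    rw [h3, mul_assoc]
    exact dvd_mul_right p _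
  rw [hcardS, hE'] at hs
  have h2 : φ' 1 * ((Nat.card H : ℂ) * ((p * E : ℕ) : ℂ) / p) =
      ((ndeg φ' * (Nat.card H * E) : ℕ) : ℂ) := by
    push_cast
    rw [ndeg_cast hφ']
    field_simp
  rw [h2] at hs
  have h3 := (red_nat_eq_zero_iff hpO _).mp hs.2
  rcases (Nat.Prime.dvd_mul hp.out).mp h3 with h4 | h4
  · have h5 : (Nat.card H : ℂ) / φ' 1 ∈ O := card_div_mem hφ'
    have h6 : (Nat.card H : ℂ) = ((Nat.card H : ℂ) / φ' 1) * (ndeg φ' : ℂ) := by
      rw [ndeg_cast hφ', div_mul_cancel₀ _ hφ'.one_ne]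
    have h7 := congrArg (red O) h6
    rw [red_mul h5 (natCast_mem' _), (red_nat_eq_zero_iff hpO _).mpr h4, mul_zero] at h7
    exact hL.cH ((red_nat_eq_zero_iff hpO _).mp h7)
  · rcases (Nat.Prime.dvd_mul hp.out).mp h4 with h5 | h5
    · exact hL.cH h5
    · exact hEp h5

end Pool.Agent.K3h45.IN
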