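import Pool.Agent.K3h83.IN.Stm5

/-!
# Brick N2 of helper83, first part: general lemmas
-/

set_option autoImplicit false
set_option linter.unusedSectionVars false
set_option linter.style.haveILetI false

open scoped BigOperators Classical

noncomputable section

namespace Pool.Agent.K3h45.IN

open Pool.Agent.Helper884 Pool.Agent.K3h3.KB Pool.Agent.K3h83.IN
open Pool.Agent.H254R3.IN (IsIrr mem_Irr RF red red_zero red_one red_sum red_mul red_add red_sub
  red_neg red_eq_zero red_eq_zero_iff red_eq_iff red_natCast charP_RF red_nat_eq_zero_iff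
  nonunits_mem mem_of_isIntegral orth_sum natCast_mem' sub_mem' schur irr_nontrivial nat_inv_mem)
open IC (Irr)

/-- a valuation ring with residue characteristic `p` -/
theorem exists_val (p : ℕ) [hp : Fact p.Prime] :
    ∃ O : ValuationSubring ℂ, (p : ℂ) ∈ O.nonunits := by
  set A : Subring ℂ := (integralClosure ℤ ℂ).toSubring with hA
  have h1 : IsIntegrallyClosedIn A ℂ := by
    rw [Subring.isIntegrallyClosedIn_iff]
    intro x hx
    have h2 : IsIntegral (integralClosure ℤ ℂ) x := hx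
    exact isIntegral_trans (R := ℤ) (A := integralClosure ℤ ℂ) x h2
  have hnot : (p : ℂ)⁻¹ ∉ A := by
    intro h
    have h2 : IsIntegral ℤ ((p : ℂ)⁻¹) := h
    have h3 : (p : ℂ)⁻¹ = algebraMap ℚ ℂ ((p : ℚ)⁻¹) := by simp
    rw [h3, isIntegral_algebraMap_iff (FaithfulSMul.algebraMap_injective ℚ ℂ)] at h2
    obtain ⟨y, hy⟩ := IsIntegrallyClosed.isIntegral_iff.mp h2
    have hp0 : (p : ℚ) ≠ 0 := by exact_mod_cast hp.out.ne_zero
    have h4 : (p : ℚ) * (y : ℚ) = 1 := by
      have : (algebraMap ℤ ℚ) y = (y : ℚ) := rfl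
      rw [← this, hy, mul_inv_cancel₀ hp0]
    have h5 : (p : ℤ) * y = 1 := by exact_mod_cast h4
    have h6 : (p : ℤ) ∣ 1 := ⟨y, h5.symm⟩
    have h7 : p ∣ 1 := by exact_mod_cast h6
    exact hp.out.one_lt.ne' (Nat.dvd_one.1 h7)
  obtain ⟨V, hV, hz⟩ := Subring.exists_le_valuationSubring_of_isIntegrallyClosedIn hnot
  refine ⟨V, ?_⟩
  rw [ValuationSubring.mem_nonunits_iff_or]
  right
  exact hz

/-- the maximal ideal as an additive subgroup of `ℂ` -/
def mm (O : ValuationSubring ℂ) : AddSubgroup ℂ where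
  carrier := {x | x ∈ O ∧ red O x = 0}
  add_mem' := by
    rintro a b ⟨ha, ha'⟩ ⟨hb, hb'⟩
    exact ⟨O.add_mem _ _ ha hb, by rw [red_add ha hb, ha', hb', add_zero]⟩
  zero_mem' := ⟨O.zero_mem, red_zero⟩
  neg_mem' := by
    rintro a ⟨ha, ha'⟩
    exact ⟨O.neg_mem _ ha, by rw [red_neg ha, ha', neg_zero]⟩

/-- the valuation ring as an additive subgroup -/
def oo (O : ValuationSubring ℂ) : AddSubgroup ℂ := O.toSubring.toAddSubgroup

theorem mem_oo {O : ValuationSubring ℂ} {x : ℂ} : x ∈ oo O ↔ x ∈ O := Iff.rfl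

theorem mem_mm {O : ValuationSubring ℂ} {x : ℂ} : x ∈ mm O ↔ x ∈ O ∧ red O x = 0 := Iff.rfl

theorem mm_mul {O : ValuationSubring ℂ} {x y : ℂ} (hx : x ∈ O) (hy : y ∈ mm O) : x * y ∈ mm O :=
  ⟨O.mul_mem _ _ hx hy.1, by rw [red_mul hx hy.1, hy.2, mul_zero]⟩

/-- invariant sums over a free action -/
theorem free_sum {Q X : Type} [Group Q] [Fintype Q] (act : Q → X → X) (h1 : ∀ x, act 1 x = x)
    (hmul : ∀ a b x, act (a * b) x = act a (act b x)) (f : X → ℂ) (M : AddSubgroup ℂ) :
    ∀ (n : ℕ) (s : Finset X), s.card = n → (∀ q, ∀ x ∈ s, act q x ∈ s) →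
      (∀ q, ∀ x ∈ s, act q x = x → q = 1) → (∀ q, ∀ x ∈ s, f (act q x) = f x) →
      (∀ x ∈ s, f x ∈ M) → ∃ z ∈ M, ∑ x ∈ s, f x = (Nat.card Q : ℂ) * z := by
  intro n
  induction n using Nat.strong_induction_on with
  | _ n ih =>
    intro s hs hact hfree hf hM
    rcases s.eq_empty_or_nonempty with rfl | ⟨x, hx⟩
    · exact ⟨0, M.zero_mem, by simp⟩
    · set o : Finset X := Finset.univ.image (fun q : Q => act q x) with ho
      have hinj : Function.Injective (fun q : Q => act q x) := by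
        intro a b hab
        have h2 : act (b⁻¹ * a) x = x := by
          rw [hmul]
          have : act a x = act b x := hab
          rw [this, ← hmul, inv_mul_cancel, h1]
        have h3 := hfree _ x hx h2
        exact (inv_mul_eq_one.mp h3).symm
      have hos : o ⊆ s := by
        intro y hy
        obtain ⟨q, -, rfl⟩ := Finset.mem_image.mp hy
        exact hact q x hx
      have hxo : x ∈ o := Finset.mem_image.mpr ⟨1, Finset.mem_univ _, h1 x⟩
      have hlt : (s \ o).card < n := by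
        rw [← hs]
        exact Finset.card_lt_card (Finset.sdiff_ssubset hos ⟨x, hxo⟩)
      obtain ⟨z, hz, hsum⟩ := ih _ hlt (s \ o) rfl (by
        intro q y hy
        rw [Finset.mem_sdiff] at hy ⊢
        refine ⟨hact q y hy.1, fun h => hy.2 ?_⟩
        obtain ⟨r, -, hr⟩ := Finset.mem_image.mp h
        refine Finset.mem_image.mpr ⟨q⁻¹ * r, Finset.mem_univ _, ?_⟩
        rw [hmul, hr, ← hmul, inv_mul_cancel, h1])
        (fun q y hy => hfree q y (Finset.mem_sdiff.mp hy).1)
        (fun q y hy => hf q y (Finset.mem_sdiff.mp hy).1)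
        (fun y hy => hM y (Finset.mem_sdiff.mp hy).1)
      refine ⟨z + f x, M.add_mem hz (hM x hx), ?_⟩
      rw [← Finset.sum_sdiff hos, hsum, mul_add]
      congr 1
      rw [ho, Finset.sum_image (fun a _ b _ h => hinj h), Finset.sum_congr rfl (fun q _ => hf q x hx),
        Finset.sum_const, nsmul_eq_mul, Finset.card_univ, Nat.card_eq_fintype_card]

/-- the mean over the conjugates -/
theorem sum_conj {G : Type} [Group G] [Fintype G] {χ : G → ℂ} (hχ : IsIrr χ) (g h : G) :
    (∑ t : G, χ (t * g * t⁻¹ * h)) * χ 1 = Nat.card G * χ g * χ h := by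
  obtain ⟨V, _, _, _, ρ, hr, rfl⟩ := hχ
  obtain ⟨c, hc⟩ := schur ρ hr (∑ t : G, ρ (t * g * t⁻¹)) (by
    intro k v
    simp only [LinearMap.sum_apply, map_sum]
    refine Fintype.sum_equiv (Equiv.mulLeft k⁻¹) _ _ ?_
    intro t
    rw [← Module.End.mul_apply, ← Module.End.mul_apply, ← map_mul, ← map_mul]
    congr 2
    simp only [Equiv.coe_mulLeft]
    group)
  have h1 : LinearMap.trace ℂ V (∑ t : G, ρ (t * g * t⁻¹)) = Nat.card G * ρ.character g := by
    rw [map_sum]
    have h2 : ∀ t : G, LinearMap.trace ℂ V (ρ (t * g * t⁻¹)) = ρ.character g := fun t =>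
      ρ.char_conj g t
    rw [Finset.sum_congr rfl (fun t _ => h2 t), Finset.sum_const, nsmul_eq_mul, Finset.card_univ,
      Nat.card_eq_fintype_card]
  have h3 : LinearMap.trace ℂ V ((∑ t : G, ρ (t * g * t⁻¹)) * ρ h) =
      ∑ t : G, ρ.character (t * g * t⁻¹ * h) := by
    rw [Finset.sum_mul, map_sum]
    refine Finset.sum_congr rfl fun t _ => ?_
    rw [← map_mul]
    rfl
  have h4 : c * ρ.character 1 = Nat.card G * ρ.character g := by
    rw [← h1, hc, map_smul, LinearMap.trace_id, smul_eq_mul, ρ.char_one]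
  have h5 : c * ρ.character h = ∑ t : G, ρ.character (t * g * t⁻¹ * h) := by
    rw [← h3, hc, smul_mul_assoc, map_smul, smul_eq_mul]
    congr 1
  rw [← h5, mul_right_comm, h4]

/-- generalised orthogonality -/
theorem gen_orth {H : Type} [Group H] [Fintype H] {ψ φ : H → ℂ} (hψ : IsIrr ψ) (hφ : IsIrr φ)
    (z : H) : ∑ y : H, ψ (z * y) * φ y⁻¹ =
      if ψ = φ then (Nat.card H : ℂ) * φ z / φ 1 else 0 := by
  have hH : (Nat.card H : ℂ) ≠ 0 := by exact_mod_cast Nat.card_pos.ne'
  have h1 : ∀ t : H, ∑ y : H, ψ (t * z * t⁻¹ * y) * φ y⁻¹ = ∑ y : H, ψ (z * y) * φ y⁻¹ := by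
    intro t
    refine Fintype.sum_equiv (MulAut.conj t⁻¹).toEquiv _ _ fun y => ?_
    have e : (MulAut.conj t⁻¹).toEquiv y = t⁻¹ * y * t := by simp
    rw [e]
    have e1 : ψ (t * z * t⁻¹ * y) = ψ (z * (t⁻¹ * y * t)) := by
      rw [← hψ.conj (z * (t⁻¹ * y * t)) t]
      congr 1
      group
    have e2 : φ y⁻¹ = φ (t⁻¹ * y * t)⁻¹ := by
      rw [← hφ.conj (t⁻¹ * y * t)⁻¹ t]
      congr 1
      group
    rw [e1, ← e2]
  have h2 : (Nat.card H : ℂ) * ((∑ y : H, ψ (z * y) * φ y⁻¹) * ψ 1) =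
      Nat.card H * (ψ z * ∑ y : H, ψ y * φ y⁻¹) := by
    calc (Nat.card H : ℂ) * ((∑ y : H, ψ (z * y) * φ y⁻¹) * ψ 1)
        = (∑ t : H, ∑ y : H, ψ (t * z * t⁻¹ * y) * φ y⁻¹) * ψ 1 := by
          rw [Finset.sum_congr rfl (fun t _ => h1 t), Finset.sum_const, nsmul_eq_mul,
            Finset.card_univ, Nat.card_eq_fintype_card, mul_assoc]
      _ = ∑ y : H, ((∑ t : H, ψ (t * z * t⁻¹ * y)) * ψ 1) * φ y⁻¹ := by
          rw [Finset.sum_comm, Finset.sum_mul]
          refine Finset.sum_congr rfl fun y _ => ?_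
          rw [← Finset.sum_mul]
          ring
      _ = ∑ y : H, (Nat.card H * ψ z * ψ y) * φ y⁻¹ := by
          refine Finset.sum_congr rfl fun y _ => ?_
          rw [sum_conj hψ]
      _ = _ := by
          rw [Finset.mul_sum, Finset.mul_sum]
          refine Finset.sum_congr rfl fun y _ => ?_
          ring
  have h3 := mul_left_cancel₀ hH h2
  rw [orth_sum hψ hφ] at h3
  by_cases h : ψ = φ
  · subst h
    rw [if_pos rfl] at h3 ⊢
    rw [eq_div_iff hψ.one_ne, h3]
    ring
  · rw [if_neg h] at h3 ⊢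
    rw [mul_zero] at h3
    rcases mul_eq_zero.mp h3 with h4 | h4
    · exact h4
    · exact absurd h4 hψ.one_ne

/-- the `p`-part, irreducible characters of commutative groups -/
theorem ppart_comm {p : ℕ} [hp : Fact p.Prime] {O : ValuationSubring ℂ} (hpO : (p : ℂ) ∈ O.nonunits)
    {K : Type} [Group K] [Fintype K] (hc : ∀ a b : K, a * b = b * a) {ψ : K → ℂ} (hψ : IsIrr ψ)
    {x : K} (hx : x ^ p = 1) (w : K) : ψ (x * w) - ψ w ∈ mm O := by
  have hK : (Nat.card K : ℂ) ≠ 0 := by exact_mod_cast Nat.card_pos.ne'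
  have h0 := hψ.one_ne
  have hmul : ∀ g h : K, ψ (g * h) * ψ 1 = ψ g * ψ h := by
    intro g h
    have h1 := sum_conj hψ g h
    have h2 : ∀ t : K, t * g * t⁻¹ * h = g * h := by
      intro t
      rw [hc t g, mul_inv_cancel_right]
    rw [Finset.sum_congr rfl (fun t _ => by rw [h2 t]), Finset.sum_const, nsmul_eq_mul,
      Finset.card_univ, ← Nat.card_eq_fintype_card, mul_assoc, mul_assoc] at h1
    exact mul_left_cancel₀ hK h1
  set t := ψ x / ψ 1 with ht
  have hpow : ∀ n : ℕ, ψ (x ^ n) = t ^ n * ψ 1 := by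
    intro n
    induction n with
    | zero => simp
    | succ n ih =>
      have h1 := hmul (x ^ n) x
      rw [← pow_succ, ih] at h1
      have h2 : ψ (x ^ (n + 1)) = t ^ n * ψ x := by
        apply mul_right_cancel₀ h0
        rw [h1]
        ring
      rw [h2, pow_succ, ht]
      field_simp
  have htp : t ^ p = 1 := by
    have h1 := hpow p
    rw [hx] at h1
    exact (mul_right_cancel₀ h0 (by rw [← h1, one_mul])).symm
  have htI : IsIntegral ℤ t := by
    refine ⟨Polynomial.X ^ p - 1, Polynomial.monic_X_pow_sub_C 1 hp.out.ne_zero, ?_⟩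
    simp [htp]
  have htO : t ∈ O := mem_of_isIntegral htI
  have hrt : red O t = 1 := by
    have := charP_RF hpO
    have h1 : ∀ n : ℕ, red O (t ^ n) = red O t ^ n := by
      intro n
      induction n with
      | zero => rw [pow_zero, pow_zero, red_one]
      | succ n ih => rw [pow_succ, pow_succ, red_mul (pow_mem htO n) htO, ih]
    have h2 : red O t ^ p = 1 := by rw [← h1, htp, red_one]
    have h3 : (red O t - 1) ^ p = 0 := by
      rw [sub_pow_char, h2, one_pow, sub_self]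
    exact sub_eq_zero.mp (pow_eq_zero_iff hp.out.ne_zero |>.mp h3)
  have h5 : ψ (x * w) - ψ w = ψ w * (t - 1) := by
    have h6 : ψ (x * w) = t * ψ w := by
      apply mul_right_cancel₀ h0
      rw [hmul, ht]
      field_simp
    rw [h6]
    ring
  rw [h5]
  exact mm_mul (hψ.val_mem O w) ⟨sub_mem' htO O.one_mem, by rw [red_sub htO O.one_mem, hrt, red_one,
    sub_self]⟩

/-- the `p`-part -/
theorem ppart {p : ℕ} [hp : Fact p.Prime] {O : ValuationSubring ℂ} (hpO : (p : ℂ) ∈ O.nonunits)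
    {G : Type} [Group G] [Finite G] {χ : G → ℂ} (hχ : IsIrr χ) {x w : G} (hxw : x * w = w * x)
    (hx : x ^ p = 1) : χ (x * w) - χ w ∈ mm O := by
  set K : Subgroup G := Subgroup.closure {x, w} with hK
  haveI : Fintype K := Fintype.ofFinite K
  have hcomm : ∀ a ∈ ({x, w} : Set G), ∀ b ∈ ({x, w} : Set G), a * b = b * a := by
    rintro a (rfl | rfl) b (rfl | rfl)
    · rfl
    · exact hxw
    · exact hxw.symm
    · rfl
  have hc : ∀ a b : K, a * b = b * a := by
    intro a b
    letI := Subgroup.closureCommGroupOfComm hcomm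
    exact mul_comm a b
  obtain ⟨V, _, _, _, ρ, hr, rfl⟩ := hχ
  set ρK : Representation ℂ K V := ρ.comp K.subtype with hρK
  have hcl : IC.IsClass ρK.character := IC.isClass_char ρK
  have hexp := IC.expand ρK.character hcl
  have hval : ∀ k : K, ρ.character (k : G) =
      ∑ ψ ∈ Irr K, IC.B ρK.character ψ * ψ k := by
    intro k
    have h1 := congrFun hexp k
    rw [Finset.sum_apply] at h1
    exact h1
  have hxK : x ∈ K := Subgroup.subset_closure (by simp)
  have hwK : w ∈ K := Subgroup.subset_closure (by simp)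
  have h1 := hval (⟨x, hxK⟩ * ⟨w, hwK⟩)
  have h2 := hval ⟨w, hwK⟩
  have h3 : ρ.character (x * w) - ρ.character w = ∑ ψ ∈ Irr K, IC.B ρK.character ψ *
      (ψ (⟨x, hxK⟩ * ⟨w, hwK⟩) - ψ ⟨w, hwK⟩) := by
    rw [Finset.sum_congr rfl (fun ψ _ => mul_sub _ _ _), Finset.sum_sub_distrib, ← h1, ← h2]
    rfl
  rw [h3]
  refine (mm O).sum_mem fun ψ hψ => ?_
  have hψ' : IsIrr ψ := mem_Irr.mp hψ
  have hB : ∃ n : ℕ, IC.B ρK.character ψ = n := by
    obtain ⟨W, _, _, _, σ, hs, rfl⟩ := hψ'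
    exact Pool.Agent.Q90.WR.B_nat ρK σ
  obtain ⟨n, hn⟩ := hB
  rw [hn]
  refine mm_mul (natCast_mem' n) (ppart_comm hpO hc hψ' ?_ _)
  ext
  exact hx

end Pool.Agent.K3h45.IN
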